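import Pool.Agent.helper70.LE.SpecN

set_option autoImplicit false

namespace Pool.Agent.LE

open Pool.Agent.helper58.DC Pool.Agent.DI Pool.Agent.GR Pool.Agent.OB Pool.Agent.DR Pool.Agent.FI Pool.Agent.FI3 Pool.Agent.FI4

/-- powers of `a l` modulo `cz Q` -/
lemma PPL_pow {G : Type} [Group G] {Q : Subgroup G} {a l : G} (ha : a ∈ nz Q) (hl : l ∈ cz Q) (k : ℕ) :
    (a ^ k)⁻¹ * (a * l) ^ k ∈ cz Q := by
  induction k with
  | zero => simp only [pow_zero, inv_one, mul_one]; exact (cz Q).one_mem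
  | succ k ih =>
    have h1 := cz_conj ((nz Q).inv_mem ha) ih
    have h2 : (a ^ (k + 1))⁻¹ * (a * l) ^ (k + 1) =
        (a⁻¹ * ((a ^ k)⁻¹ * (a * l) ^ k) * a⁻¹⁻¹) * l := by
      rw [pow_succ a k, pow_succ (a * l) k]
      group
    rw [h2]
    exact (cz Q).mul_mem h1 hl

/-- a `p`-element is a power of a power of exponent prime to `p` of the product with a commuting `p`-regular element -/
lemma PPL_bez {G : Type} [Group G] [Finite G] {p : ℕ} (hp : p.Prime) {u v : G} (hu : PEl p u) (hv : PReg p v)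
    (huv : Commute u v) {N : ℕ} (hN : ¬ p ∣ N) : ∃ s : ℤ, ((u * v) ^ N) ^ s = u := by
  obtain ⟨k, hk⟩ := hu
  have h1 : Nat.Coprime (orderOf v * N) (p ^ k) := by
    refine Nat.Coprime.pow_right _ (Nat.Coprime.symm ?_)
    rw [Nat.Prime.coprime_iff_not_dvd hp, hp.dvd_mul]
    rintro (h | h)
    · exact hv h
    · exact hN h
  obtain ⟨s, t, hst⟩ := Nat.isCoprime_iff_coprime.2 h1
  refine ⟨orderOf v * s, ?_⟩
  have h2 : ((u * v) ^ N) ^ ((orderOf v : ℤ) * s) = (u * v) ^ ((N : ℤ) * ((orderOf v : ℤ) * s)) := by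
    rw [zpow_mul (u * v) (N : ℤ) _, zpow_natCast (u * v) N]
  rw [h2, huv.mul_zpow]
  have h3 : v ^ ((N : ℤ) * ((orderOf v : ℤ) * s)) = 1 := by
    rw [show (N : ℤ) * ((orderOf v : ℤ) * s) = (orderOf v : ℤ) * ((N : ℤ) * s) by ring, zpow_mul,
      zpow_natCast, pow_orderOf_eq_one, one_zpow]
  have h4 : u ^ ((N : ℤ) * ((orderOf v : ℤ) * s)) = u := by
    have e : (N : ℤ) * ((orderOf v : ℤ) * s) = 1 + ((p ^ k : ℕ) : ℤ) * (-t) := by
      push_cast at hst ⊢
      linarith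
    rw [e, zpow_add, zpow_one, zpow_mul, zpow_natCast, hk, one_zpow, mul_one]
  rw [h3, h4, mul_one]

theorem PPL : PPL_stmt := by
  intro p M hs G _ _ D x θ χ hL Q hQ a haT haQ u v hu hv huv h
  have hp : p.Prime := hs.pr
  have hCL : cz D ≤ cz Q := cz_mono hQ
  -- `a ^ N ∈ cz D`
  have hnor : ((cz D).subgroupOf (TT M D θ)).Normal := by
    refine ⟨fun n hn g => ?_⟩
    rw [Subgroup.mem_subgroupOf] at hn ⊢
    have := cz_conj (g.2.1 : (g : G) ∈ nz D) hn
    simpa using this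
  have haN : a ^ (cz D).relIndex (TT M D θ) ∈ cz D := by
    have h1 := Subgroup.pow_index_mem ((cz D).subgroupOf (TT M D θ)) ⟨a, haT⟩
    rw [Subgroup.mem_subgroupOf] at h1
    simpa [Subgroup.relIndex] using h1
  set N := (cz D).relIndex (TT M D θ) with hN
  have hNp : ¬ p ∣ N := hL.bet
  have hwN : (u * v) ^ N ∈ cz Q := by
    have h1 := PPL_pow haQ h N
    have h2 : a * (a⁻¹ * (u * v)) = u * v := by group
    rw [h2] at h1
    have h3 : (u * v) ^ N = a ^ N * ((a ^ N)⁻¹ * (u * v) ^ N) := by group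
    rw [h3]
    exact (cz Q).mul_mem (hCL haN) h1
  obtain ⟨s, hs'⟩ := PPL_bez hp hu hv huv hNp
  have hu' : u ∈ cz Q := by
    rw [← hs']
    exact (cz Q).zpow_mem hwN s
  refine ⟨hu', ?_⟩
  have h1 := cz_conj ((nz Q).inv_mem haQ) ((cz Q).inv_mem hu')
  have h2 : a⁻¹ * v = (a⁻¹ * u⁻¹ * a⁻¹⁻¹) * (a⁻¹ * (u * v)) := by group
  rw [h2]
  exact (cz Q).mul_mem h1 h

end Pool.Agent.LE
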