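import Pool.Agent.helper57.LE.S2
import Pool.Agent.helper73.LE.BX
import Pool.Agent.helper66.LE.Defs3

/-!
# lg:C4a  crossings of the torus give crossings of boxes
-/

open Finset Classical

namespace Pool.Agent.helper66.LE

/-- the section of the reduction -/
noncomputable def C4_sec (d L : ℕ) (x : Tor d L) : Fin d → ℤ := fun i => (x i).valMinAbs

theorem C4_mem_box {d n : ℕ} {x : Fin d → ℤ} : x ∈ box d n ↔ ∀ i, |x i| ≤ n := by
  unfold box
  rw [Fintype.mem_piFinset]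
  constructor
  · intro h i
    have := h i
    rw [Finset.mem_Icc] at this
    exact abs_le.2 this
  · intro h i
    rw [Finset.mem_Icc]
    exact abs_le.1 (h i)

theorem C4_val {d L r : ℕ} [NeZero L] (hL : 4 * r + 1 ≤ L) {x : Fin d → ℤ} (hx : x ∈ box d (2 * r)) (i : Fin d) :
    (S2_red d L x i).valMinAbs = x i := by
  have h := C4_mem_box.1 hx i
  rw [ZMod.valMinAbs_spec]
  refine ⟨rfl, ?_⟩
  rw [Set.mem_Ioc]
  rw [abs_le] at h
  push_cast at h
  constructor <;> omega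

theorem C4_sec_red {d L r : ℕ} [NeZero L] (hL : 4 * r + 1 ≤ L) {x : Fin d → ℤ} (hx : x ∈ box d (2 * r)) :
    C4_sec d L (S2_red d L x) = x := funext fun i => C4_val hL hx i

theorem C4_box_mono {d m n : ℕ} (h : m ≤ n) {x : Fin d → ℤ} (hx : x ∈ box d m) : x ∈ box d n := by
  rw [C4_mem_box] at hx ⊢
  intro i
  exact (hx i).trans (by exact_mod_cast h)

theorem C4_uv_abs {d : ℕ} {t : Fin d → ℤ} (ht : t ∈ uv d ℤ) (i : Fin d) : |t i| ≤ 1 := by
  obtain ⟨j, rfl | rfl⟩ := (mem_uv _ _ _).1 ht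
  · by_cases h : i = j
    · subst h; simp
    · simp [Pi.single_eq_of_ne h]
  · by_cases h : i = j
    · subst h; simp
    · simp [Pi.single_eq_of_ne h]

theorem C4_add_box {d r : ℕ} (hr : 1 ≤ r) {x t : Fin d → ℤ} (hx : x ∈ box d (r - 1)) (ht : t ∈ uv d ℤ) :
    x + t ∈ box d r := by
  rw [C4_mem_box] at hx ⊢
  intro i
  have h1 := hx i
  have h2 := C4_uv_abs ht i
  have h3 := abs_add_le (x i) (t i)
  have h4 : ((r - 1 : ℕ) : ℤ) = r - 1 := by omega
  rw [Pi.add_apply]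
  omega

theorem C4_neg_uv {d L : ℕ} {t : Tor d L} (ht : t ∈ uv d (ZMod L)) : -t ∈ uv d (ZMod L) := by
  obtain ⟨j, rfl | rfl⟩ := (mem_uv _ _ _).1 ht
  · rw [mem_uv]
    exact ⟨j, Or.inr (by rw [← Pi.single_neg])⟩
  · rw [mem_uv]
    exact ⟨j, Or.inl (by rw [← Pi.single_neg, neg_neg])⟩

theorem C4_cay {d L : ℕ} [NeZero L] {u w : Tor d L} (h : s(u, w) ∈ cay (uv d (ZMod L))) :
    ∃ t ∈ uv d ℤ, w = u + S2_red d L t := by
  obtain ⟨x, s, hs, he⟩ := BX_mem_cay.1 h
  have key : ∃ s' ∈ uv d (ZMod L), w = u + s' := by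
    rw [Sym2.eq_iff] at he
    rcases he with ⟨rfl, rfl⟩ | ⟨rfl, rfl⟩
    · exact ⟨s, hs, rfl⟩
    · exact ⟨-s, C4_neg_uv hs, by abel⟩
  obtain ⟨s', hs', rfl⟩ := key
  rw [S2_uv, Finset.mem_image] at hs'
  obtain ⟨t, ht, rfl⟩ := hs'
  exact ⟨t, ht, rfl⟩

theorem C4_edge {d L r : ℕ} [NeZero L] (hr : 1 ≤ r) {u0 t : Fin d → ℤ} (hu : u0 ∈ box d (r - 1))
    (ht : t ∈ uv d ℤ) : s(S2_red d L u0, S2_red d L u0 + S2_red d L t) ∈
      (zE d (box d r)).image (Sym2.map (S2_red d L)) := by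
  rw [Finset.mem_image]
  refine ⟨s(u0, u0 + t), BX_mem_zE.2 ⟨u0, t, C4_box_mono (by omega) hu, ht, C4_add_box hr hu ht, rfl⟩, ?_⟩
  rw [Sym2.map_mk, S2_red_add]

theorem torus_to_box (d r s : ℕ) (hd : 1 ≤ d) (hr : 1 ≤ r) (hs : s ≤ r) : ∃ L₁ : ℕ, ∀ L ≥ L₁, ∀ [NeZero L],
    ∃ A : Finset (Tor d L), s ^ d ≤ A.card ∧ ∀ (i : Fin d) (q : ℝ), 0 ≤ q → q ≤ 1 →
      Pr q (cay (uv d (ZMod L))) (fun F => ∃ v ∈ A, farE i (2 * r) v F) ≤
        Pr q (zE d (box d r)) (fun F => PTS (zE d (box d r)) F 0 (box d s : Set (Fin d → ℤ)) (bd d r)) := by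
  refine ⟨4 * r + 1, fun L hL _ => ?_⟩
  have hinj : ∀ x ∈ box d (2 * r), ∀ y ∈ box d (2 * r), S2_red d L x = S2_red d L y → x = y := by
    intro x hx y hy h
    rw [← C4_sec_red hL hx, ← C4_sec_red hL hy, h]
  refine ⟨(box d s).image (S2_red d L), ?_, ?_⟩
  · rw [Finset.card_image_of_injOn (fun x hx y hy h => hinj x (C4_box_mono (by omega) hx) y
      (C4_box_mono (by omega) hy) h)]
    unfold box
    rw [Fintype.card_piFinset]
    simp only [Int.card_Icc, Finset.prod_const, Finset.card_univ, Fintype.card_fin]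
    apply Nat.pow_le_pow_left
    omega
  intro i q h0 h1
  set E₀ := zE d (box d r) with hE₀
  set E₁ := E₀.image (Sym2.map (S2_red d L)) with hE₁
  have hE₁cay : E₁ ⊆ cay (uv d (ZMod L)) := by
    intro e he
    rw [hE₁, Finset.mem_image] at he
    obtain ⟨e, he, rfl⟩ := he
    obtain ⟨x, t, hx, ht, hxt, rfl⟩ := BX_mem_zE.1 he
    rw [Sym2.map_mk, S2_red_add]
    refine BX_mem_cay.2 ⟨S2_red d L x, S2_red d L t, ?_, rfl⟩
    rw [S2_uv, Finset.mem_image]
    exact ⟨t, ht, rfl⟩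
  -- the event in terms of the edges of `E₁`
  let X' : Finset (Sym2 (Tor d L)) → Prop := fun F =>
    ∃ v0 ∈ box d s, ∃ w0 ∈ bd d r, Conn F (S2_red d L v0) (S2_red d L w0)
  have step1 : Pr q (cay (uv d (ZMod L))) (fun F => ∃ v ∈ (box d s).image (S2_red d L), farE i (2 * r) v F) ≤
      Pr q (cay (uv d (ZMod L))) (fun F => X' (F ∩ E₁)) := by
    refine Pr_mono h0 h1 fun F hF h => ?_
    obtain ⟨v, hv, x, hx, hvx⟩ := h
    obtain ⟨v0, hv0, rfl⟩ := Finset.mem_image.1 hv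
    by_cases hv1 : v0 ∈ box d (r - 1)
    · -- the exit from the image of `box (r - 1)`
      have hxS : x ∉ (S2_red d L) '' (box d (r - 1) : Set (Fin d → ℤ)) := by
        rintro ⟨x0, hx0, rfl⟩
        rw [← S2_red_sub] at hx
        have hx0' : x0 ∈ box d (r - 1) := hx0
        have h2 : x0 - v0 ∈ box d (2 * r) := by
          rw [C4_mem_box] at hx0' hv0 ⊢
          intro j
          have h3 := hx0' j
          have h4 := hv0 j
          rw [Pi.sub_apply]
          rw [abs_le] at h3 h4 ⊢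
          push_cast
          constructor <;> omega
        unfold ab at hx
        rw [C4_val hL h2] at hx
        have h5 := C4_mem_box.1 h2 i
        have h6 : (|((x0 - v0) i : ℤ)| : ℝ) ≤ 2 * r := by exact_mod_cast h5
        linarith
      obtain ⟨u, hu, w, hw, huw, F₁, F₂, hF₁, -, -, -, -, hF₁S, hc, -⟩ :=
        conn_exit ((S2_red d L) '' (box d (r - 1) : Set (Fin d → ℤ))) hvx ⟨v0, hv1, rfl⟩ hxS
      obtain ⟨u0, hu0, rfl⟩ := hu
      have hu0' : u0 ∈ box d (r - 1) := hu0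
      obtain ⟨t, ht, rfl⟩ := C4_cay (hF huw)
      refine ⟨v0, hv0, u0 + t, ⟨C4_add_box hr hu0' ht, ?_⟩, ?_⟩
      · by_contra hcon
        push Not at hcon
        apply hw
        refine ⟨u0 + t, ?_, S2_red_add d L u0 t⟩
        have h7 := C4_mem_box.1 (C4_add_box hr hu0' ht)
        change u0 + t ∈ box d (r - 1)
        rw [C4_mem_box]
        intro j
        have h8 := h7 j
        have h9 := hcon j
        omega
      · have hF₁E : F₁ ⊆ F ∩ E₁ := by
          intro e he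
          rw [Finset.mem_inter]
          refine ⟨hF₁ he, ?_⟩
          have hS := hF₁S e he
          have hcay := hF (hF₁ he)
          induction e using Sym2.ind with
          | _ a b =>
            obtain ⟨a0, ha0, rfl⟩ := hS a (Sym2.mem_mk_left _ _)
            obtain ⟨t', ht', rfl⟩ := C4_cay hcay
            exact C4_edge hr ha0 ht'
        have hlast : s(S2_red d L u0, S2_red d L u0 + S2_red d L t) ∈ F ∩ E₁ := by
          rw [Finset.mem_inter]
          exact ⟨huw, C4_edge hr hu0' ht⟩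
        rw [S2_red_add]
        exact (hc.mono hF₁E).trans (conn_of_mem hlast)
    · refine ⟨v0, hv0, v0, ⟨C4_box_mono hs hv0, ?_⟩, conn_refl _ _⟩
      by_contra hcon
      push Not at hcon
      apply hv1
      rw [C4_mem_box]
      intro j
      have h8 := C4_mem_box.1 (C4_box_mono hs hv0) j
      have h9 := hcon j
      omega
  refine step1.trans ?_
  have step2 : Pr q (cay (uv d (ZMod L))) (fun F => X' (F ∩ E₁)) = Pr q E₁ X' := by
    unfold Pr
    exact Ex_inter hE₁cay q (fun F => @ite ℝ (X' F) (Classical.propDecidable _) 1 0)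
  rw [step2]
  have hsecE : ∀ e ∈ E₀, Sym2.map (C4_sec d L) (Sym2.map (S2_red d L) e) = e := by
    intro e he
    obtain ⟨x, t, hx, ht, hxt, rfl⟩ := BX_mem_zE.1 he
    rw [Sym2.map_mk, Sym2.map_mk, C4_sec_red hL (C4_box_mono (by omega) hx),
      C4_sec_red hL (C4_box_mono (by omega) hxt)]
  have hsecimg : E₁.image (Sym2.map (C4_sec d L)) ⊆ E₀ := by
    intro e he
    obtain ⟨e', he', rfl⟩ := Finset.mem_image.1 he
    rw [hE₁, Finset.mem_image] at he'
    obtain ⟨e'', he'', rfl⟩ := he'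
    rw [hsecE e'' he'']
    exact he''
  refine Pr_le_of_map h0 h1 (Sym2.map (C4_sec d L)) ?_ hsecimg _ _ ?_ ?_
  · refine BX_map_injOn (A := Set.univ) ?_ (fun _ _ _ _ => Set.mem_univ _)
    intro x _ y _ h
    funext j
    exact ZMod.injective_valMinAbs (congrFun h j)
  · rintro F F' hFF ⟨a, ha, b, hb, hp⟩
    exact ⟨a, ha, b, hb, inc_PT _ _ _ _ F F' hFF hp⟩
  · rintro F hF ⟨v0, hv0, w0, hw0, hc⟩
    refine ⟨v0, hv0, w0, hw0, ?_⟩
    have hsub : F.image (Sym2.map (C4_sec d L)) ⊆ E₀ :=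
      (Finset.image_subset_image hF).trans hsecimg
    rw [PT_zero_iff hsub]
    have h2 := Conn.image (C4_sec d L) hc
    rw [C4_sec_red hL (C4_box_mono (by omega) hv0), C4_sec_red hL (C4_box_mono (by omega) hw0.1)] at h2
    exact h2

end Pool.Agent.helper66.LE
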