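import Pool.Agent.helper37.LE.KB
import Pool.Agent.helper73.LE.TK
import Pool.Agent.helper23.LE.LB

/-!
# lg:C9b  upper bounds for the time constant by subadditivity; monotonicity
-/

open Finset Classical MeasureTheory Filter Topology ProbabilityTheory

namespace Pool.Agent.helper66.LE


section C9
variable {d : ℕ}

theorem C9_T_le {ω : Env d} (hω : ∀ e, ω e = 0 ∨ ω e = 1) (x y : Fin d → ℤ) (k : ℕ)
    (Λ : Finset (Fin d → ℤ)) (hn : PT (zE d Λ) (opn ω (zE d Λ)) k x y) : T ω x y ≤ k := by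
  have hsub0 := zE_subset Λ
  generalize zE d Λ = E at hn hsub0
  obtain ⟨q, hq⟩ : ∃ q : Sym2 (Fin d → ℤ) → Bool, ∀ e, q e = true ↔ e ∉ opn ω E :=
    ⟨fun e => decide (e ∉ opn ω E), fun e => decide_eq_true_iff⟩
  rw [MS_PT_iff q hq] at hn
  obtain ⟨γ, hγ⟩ := hn
  have hsub : ∀ e ∈ γ.edges, e ∈ E := by
    intro e he
    have := γ.edges_subset_edgeSet he
    rw [SimpleGraph.edgeSet_fromEdgeSet] at this
    exact this.1
  have h2 : ∀ e ∈ γ.edges, e ∈ (zd d).edgeSet := fun e he => hsub0 e (hsub e he)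
  have h3 := MS_T_le_len (ω := ω) (fun e => by rcases hω e with h | h <;> rw [h]; norm_num)
    (γ.transfer (zd d) h2)
  rw [MS_len_eq hω E _ (by rw [SimpleGraph.Walk.edges_transfer]; exact hsub) q hq,
    SimpleGraph.Walk.edges_transfer] at h3
  exact h3.trans (Nat.cast_le.mpr hγ)

variable [NeZero d]

theorem C9_good {ω : Env d} (hω : ∀ e, ω e = 0 ∨ ω e = 1) : (∀ e, 0 ≤ ω e) ∧ ∀ e, ω e ≤ 1 := by
  constructor
  · intro e; rcases hω e with h | h <;> rw [h]; norm_num
  · intro e; rcases hω e with h | h <;> rw [h]; norm_num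

theorem C9_bound {p : ℝ} (h0 : 0 ≤ p) (h1 : p ≤ 1) : ∀ᵐ ω ∂(law d p), ∀ n : ℕ,
    0 ≤ T ω 0 (Pi.single 0 (n : ℤ)) ∧ T ω 0 (Pi.single 0 (n : ℤ)) ≤ n := by
  filter_upwards [ae_zero_one h0 h1] with ω hω n
  exact ⟨T_nonneg hω _ _, KB_T_le_nat n (C9_good hω).1 (C9_good hω).2⟩

theorem C9_int {p : ℝ} (h0 : 0 ≤ p) (h1 : p ≤ 1) (n : ℕ) :
    Integrable (fun ω : Env d => T ω 0 (Pi.single 0 (n : ℤ))) (law d p) := by
  have := law_prob (d := d) h0 h1
  refine Integrable.of_bound (measurable_T _ _).aestronglyMeasurable n ?_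
  filter_upwards [C9_bound h0 h1] with ω hω
  rw [Real.norm_eq_abs, abs_of_nonneg (hω n).1]
  exact (hω n).2

theorem C9_sub {p : ℝ} (h0 : 0 ≤ p) (h1 : p ≤ 1) (n m : ℕ) :
    ∫ ω, T ω 0 (Pi.single 0 ((m * n : ℕ) : ℤ)) ∂(law d p) ≤
      m * ∫ ω, T ω 0 (Pi.single 0 (n : ℤ)) ∂(law d p) := by
  have := law_prob (d := d) h0 h1
  have hi : ∀ k : ℕ, ∫ ω, T (KB_sh (Pi.single 0 ((k * n : ℕ) : ℤ)) ω) 0 (Pi.single 0 (n : ℤ)) ∂(law d p) =
      ∫ ω, T ω 0 (Pi.single 0 (n : ℤ)) ∂(law d p) := by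
    intro k
    have hmp := KB_mp (d := d) h0 h1 (Pi.single 0 ((k * n : ℕ) : ℤ))
    have h2 := integral_map (μ := law d p) hmp.measurable.aemeasurable
      (f := fun ω : Env d => T ω 0 (Pi.single 0 (n : ℤ))) (measurable_T _ _).aestronglyMeasurable
    rw [hmp.map_eq] at h2
    exact h2.symm
  have hint : ∀ k ∈ range m, Integrable (fun ω : Env d =>
      T (KB_sh (Pi.single 0 ((k * n : ℕ) : ℤ)) ω) 0 (Pi.single 0 (n : ℤ))) (law d p) := by
    intro k _
    have hmp := KB_mp (d := d) h0 h1 (Pi.single 0 ((k * n : ℕ) : ℤ))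
    exact hmp.integrable_comp_of_integrable (C9_int h0 h1 n)
  calc ∫ ω, T ω 0 (Pi.single 0 ((m * n : ℕ) : ℤ)) ∂(law d p)
      ≤ ∫ ω, ∑ k ∈ range m, T (KB_sh (Pi.single 0 ((k * n : ℕ) : ℤ)) ω) 0 (Pi.single 0 (n : ℤ)) ∂(law d p) := by
        refine integral_mono_ae (C9_int h0 h1 _) (integrable_finsetSum _ hint) ?_
        filter_upwards [ae_zero_one h0 h1] with ω hω
        exact KB_sub_sum (C9_good hω).1 n m
    _ = m * ∫ ω, T ω 0 (Pi.single 0 (n : ℤ)) ∂(law d p) := by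
        rw [integral_finsetSum _ hint, Finset.sum_congr rfl (fun k _ => hi k), Finset.sum_const,
          Finset.card_range, nsmul_eq_mul]

theorem C9_lim {p g : ℝ} (h0 : 0 ≤ p) (h1 : p ≤ 1) (hg : IsTimeConst d p g) {n : ℕ} (hn : 1 ≤ n) :
    g ≤ (∫ ω, T ω 0 (Pi.single 0 (n : ℤ)) ∂(law d p)) / n := by
  have := law_prob (d := d) h0 h1
  have ht : Tendsto (fun m : ℕ => ∫ ω, T ω 0 (Pi.single 0 ((m * n : ℕ) : ℤ)) / ((m * n : ℕ) : ℝ) ∂(law d p))
      atTop (𝓝 (∫ _, g ∂(law d p))) := by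
    refine tendsto_integral_of_dominated_convergence (fun _ => (1 : ℝ))
      (fun m => ((measurable_T _ _).div_const _).aestronglyMeasurable) (integrable_const _) ?_ ?_
    · intro m
      filter_upwards [C9_bound h0 h1] with ω hω
      rw [Real.norm_eq_abs, abs_of_nonneg (div_nonneg (hω _).1 (Nat.cast_nonneg _))]
      exact div_le_one_of_le₀ (hω _).2 (Nat.cast_nonneg _)
    · filter_upwards [hg] with ω hω
      have hm : Tendsto (fun m : ℕ => m * n) atTop atTop :=
        tendsto_atTop_mono (fun m => Nat.le_mul_of_pos_right m hn) tendsto_id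
      exact hω.comp hm
  rw [integral_const, probReal_univ, one_smul] at ht
  refine le_of_tendsto ht ?_
  filter_upwards [eventually_ge_atTop 1] with m hm
  rw [integral_div]
  have hm0 : (0 : ℝ) < m := by exact_mod_cast hm
  have hn0 : (0 : ℝ) < n := by exact_mod_cast hn
  have h2 := C9_sub (d := d) h0 h1 n m
  obtain ⟨I, hI⟩ : ∃ I, I = ∫ ω, T ω 0 (Pi.single 0 ((m * n : ℕ) : ℤ)) ∂(law d p) := ⟨_, rfl⟩
  obtain ⟨I', hI'⟩ : ∃ I', I' = ∫ ω, T ω 0 (Pi.single 0 (n : ℤ)) ∂(law d p) := ⟨_, rfl⟩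
  rw [← hI, ← hI'] at h2
  rw [← hI, ← hI']
  have e : ((m * n : ℕ) : ℝ) = m * n := by push_cast; ring
  rw [e, div_le_div_iff₀ (by positivity) hn0]
  nlinarith

theorem timeConst_le {p g : ℝ} (h0 : 0 ≤ p) (h1 : p ≤ 1) (hg : IsTimeConst d p g) {n K : ℕ} (hn : 1 ≤ n)
    (Λ : Finset (Fin d → ℤ)) {δ : ℝ}
    (h : Pr (1 - p) (zE d Λ) (fun F => ¬ PT (zE d Λ) F K 0 (Pi.single 0 (n : ℤ))) ≤ δ) :
    g ≤ K / n + δ := by
  have := law_prob (d := d) h0 h1
  have hn0 : (0 : ℝ) < n := by exact_mod_cast hn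
  obtain ⟨hb, hbm⟩ := law_opn h0 h1 Λ (fun F => ¬ PT (zE d Λ) F K 0 (Pi.single 0 (n : ℤ)))
  set bad : Set (Env d) := {ω | ¬ PT (zE d Λ) (opn ω (zE d Λ)) K 0 (Pi.single 0 (n : ℤ))} with hbad
  have hb2 : (law d p).real bad ≤ δ := by
    rw [Measure.real, hb, ENNReal.toReal_ofReal (Pr_nonneg (by linarith) (by linarith) _ _)]
    exact h
  have h3 : ∫ ω, T ω 0 (Pi.single 0 (n : ℤ)) ∂(law d p) ≤ K + n * δ := by
    calc ∫ ω, T ω 0 (Pi.single 0 (n : ℤ)) ∂(law d p)
        ≤ ∫ ω, ((K : ℝ) + bad.indicator (fun _ => (n : ℝ)) ω) ∂(law d p) := by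
          refine integral_mono_ae (C9_int h0 h1 _)
            ((integrable_const _).add ((integrable_const _).indicator hbm)) ?_
          filter_upwards [ae_zero_one h0 h1, C9_bound h0 h1] with ω hω hω2
          by_cases hω3 : ω ∈ bad
          · simp only [Set.indicator_of_mem hω3]
            have := (hω2 n).2
            have h4 : (0 : ℝ) ≤ K := Nat.cast_nonneg _
            linarith
          · simp only [Set.indicator_of_notMem hω3, add_zero]
            refine C9_T_le hω _ _ _ Λ ?_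
            by_contra h5
            exact hω3 h5
      _ = K + n * (law d p).real bad := by
          rw [integral_add (integrable_const _) ((integrable_const _).indicator hbm), integral_const,
            probReal_univ, one_smul, integral_indicator_const _ hbm, smul_eq_mul, mul_comm]
      _ ≤ K + n * δ := by
          have := mul_le_mul_of_nonneg_left hb2 hn0.le
          linarith
  refine (C9_lim h0 h1 hg hn).trans ?_
  rw [div_le_iff₀ hn0]
  have : (K / n + δ) * (n : ℝ) = K + n * δ := by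
    field_simp
  rw [this]
  exact h3

theorem timeConst_mono {p p' g g' : ℝ} (h0 : 0 ≤ p) (hp : p ≤ p') (h1 : p' ≤ 1) (hg : IsTimeConst d p g)
    (hg' : IsTimeConst d p' g') : g ≤ g' := by
  have h0' : 0 ≤ p' := h0.trans hp
  have h1' : p ≤ 1 := hp.trans h1
  have i1 := law_prob (d := d) h0 h1'
  have i2 := law_prob (d := d) h0' h1
  -- comparison of the laws
  have hcmp : ∀ (n k : ℕ), law d p' {ω | T ω 0 (Pi.single 0 (n : ℤ)) < k + 1} ≤
      law d p {ω | T ω 0 (Pi.single 0 (n : ℤ)) < k + 1} := by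
    intro n k
    have h2 := law_T_le (d := d) h0' h1 0 (Pi.single 0 (n : ℤ)) k
      (law d p {ω | T ω 0 (Pi.single 0 (n : ℤ)) < k + 1}).toReal (fun m => ?_)
    · rwa [ENNReal.ofReal_toReal (measure_ne_top _ _)] at h2
    · have h3 := le_law_T (d := d) h0 h1' 0 (Pi.single 0 (n : ℤ)) k (box d m)
      have h4 := (ENNReal.ofReal_le_iff_le_toReal (measure_ne_top _ _)).1 h3
      refine le_trans ?_ h4
      exact Pr_mono_q _ (inc_PT _ _ _ _) (by linarith) (by linarith) (by linarith)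
  by_contra hlt
  push Not at hlt
  -- `g' < c < g`
  obtain ⟨c, hc1, hc2⟩ := exists_between hlt
  have hg0 : 0 ≤ g' := by
    obtain ⟨ω, hω1, hω2⟩ := (hg'.and (C9_bound h0' h1)).exists
    exact ge_of_tendsto hω1 (Eventually.of_forall fun n => div_nonneg (hω2 n).1 (Nat.cast_nonneg _))
  have t1 := timeConst_prob h0 h1' hg hc2
  -- under `p'` the event `T ≤ c n` has probability near one
  obtain ⟨b, hb1, hb2⟩ := exists_between hc1
  have t2 : Tendsto (fun n : ℕ => law d p' {ω | b * n < T ω 0 (Pi.single 0 (n : ℤ))}) atTop (𝓝 0) := by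
    have h5 : TendstoInMeasure (law d p') (fun (n : ℕ) (ω : Env d) => T ω 0 (Pi.single 0 (n : ℤ)) / n)
        atTop (fun _ => g') :=
      tendstoInMeasure_of_tendsto_ae (fun n => ((measurable_T _ _).div_const _).aestronglyMeasurable) hg'
    have h6 := h5 (ENNReal.ofReal (b - g')) (by simpa using hb1)
    refine tendsto_of_tendsto_of_tendsto_of_le_of_le' tendsto_const_nhds h6
      (Eventually.of_forall fun n => bot_le) ?_
    filter_upwards [eventually_ge_atTop 1] with n hn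
    refine measure_mono fun ω hω => ?_
    have hn0 : (0 : ℝ) < n := by exact_mod_cast hn
    change b * n < T ω 0 (Pi.single 0 (n : ℤ)) at hω
    change ENNReal.ofReal (b - g') ≤ edist (T ω 0 (Pi.single 0 (n : ℤ)) / n) g'
    rw [edist_dist, Real.dist_eq]
    apply ENNReal.ofReal_le_ofReal
    have : b < T ω 0 (Pi.single 0 (n : ℤ)) / n := by rwa [lt_div_iff₀ hn0]
    refine le_trans ?_ (le_abs_self _)
    linarith
  have hb0 : 0 ≤ b := hg0.trans hb1.le
  have hev : ∀ᶠ n : ℕ in atTop, (1 : ENNReal) ≤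
      law d p' {ω | b * n < T ω 0 (Pi.single 0 (n : ℤ))} +
      law d p {ω | T ω 0 (Pi.single 0 (n : ℤ)) ≤ c * n} := by
    have hlarge : ∀ᶠ n : ℕ in atTop, 1 ≤ (c - b) * (n : ℝ) := by
      have : Tendsto (fun n : ℕ => (c - b) * (n : ℝ)) atTop atTop :=
        tendsto_natCast_atTop_atTop.const_mul_atTop (by linarith)
      exact this.eventually_ge_atTop 1
    filter_upwards [hlarge] with n hn
    calc (1 : ENNReal) = law d p' Set.univ := measure_univ.symm
      _ ≤ law d p' ({ω | b * n < T ω 0 (Pi.single 0 (n : ℤ))} ∪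
            {ω | T ω 0 (Pi.single 0 (n : ℤ)) < (⌊b * n⌋₊ : ℝ) + 1}) := by
          refine measure_mono fun ω _ => ?_
          by_cases h : b * n < T ω 0 (Pi.single 0 (n : ℤ))
          · exact Or.inl h
          · refine Or.inr ?_
            have := Nat.lt_floor_add_one (b * (n : ℝ))
            exact lt_of_le_of_lt (not_lt.1 h) this
      _ ≤ law d p' {ω | b * n < T ω 0 (Pi.single 0 (n : ℤ))} +
            law d p' {ω | T ω 0 (Pi.single 0 (n : ℤ)) < (⌊b * n⌋₊ : ℝ) + 1} := measure_union_le _ _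
      _ ≤ law d p' {ω | b * n < T ω 0 (Pi.single 0 (n : ℤ))} +
            law d p {ω | T ω 0 (Pi.single 0 (n : ℤ)) ≤ c * n} := by
          refine add_le_add le_rfl ?_
          refine (hcmp n ⌊b * n⌋₊).trans (measure_mono fun ω hω => ?_)
          have h7 : T ω 0 (Pi.single 0 (n : ℤ)) < (⌊b * n⌋₊ : ℝ) + 1 := hω
          have h8 : (⌊b * n⌋₊ : ℝ) ≤ b * n := Nat.floor_le (by positivity)
          change T ω 0 (Pi.single 0 (n : ℤ)) ≤ c * n
          linarith
  have hlim := t2.add t1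
  rw [add_zero] at hlim
  have := ge_of_tendsto hlim hev
  simp at this

end C9

end Pool.Agent.helper66.LE
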